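import Mathlib
import Pool.Agent.Lib.helper12.Spider

set_option autoImplicit false

open Finset

namespace Pool.Agent.Results.MP_6c5f5a_co.Full

/-- `G` has a connected partition of every type. -/
def EveryType {n : ℕ} (G : SimpleGraph (Fin n)) : Prop :=
  ∀ t : n.Partition, ∃ P : Finpartition (univ : Finset (Fin n)),
    (∀ B ∈ P.parts, (G.induce (B : Set (Fin n))).Connected) ∧ P.parts.val.map card = t.parts

theorem result : ∃ (n : ℕ) (G : SimpleGraph (Fin n)) (_ : DecidableRel G.Adj),
    G.IsTree ∧ G.maxDegree = 4 ∧ EveryType G ∧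
    ∀ v, G.degree v = 4 → #{u ∈ G.neighborFinset v | G.degree u = 1} ≤ 1 :=
  ⟨62, Lib.helper12.Spider.G, inferInstance, Lib.helper12.Spider.main.1,
    Lib.helper12.Spider.main.2.1, Lib.helper12.Spider.main.2.2, by decide +kernel⟩

end Pool.Agent.Results.MP_6c5f5a_co.Full
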